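import Pool.Agent.Helper38.WY.Goals6
import Pool.Agent.Helper86.PPO.OTRV

/-!
# Project WY (MP_fc6b1e_nt), packet O_GL0
-/

set_option autoImplicit false

namespace Pool.Agent.Helper8.WY

open NumberField Polynomial Module IsDedekindDomain TensorProduct
open Pool.Agent.Helper51.SigLeo
open Pool.Agent.Helper51.RP Pool.Agent.Helper42.RD Pool.Agent.Helper11.LE Pool.Agent.Helper11.PP
open Pool.Agent.Helper42.PW Pool.Agent.Helper38.WY
open Pool.Agent.Helper38.FD (Chr CutsOut LeopoldtFor)

/-- PACKET O_GL0 -/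
theorem o_gl0 (h1 : O_GL) : Pool.Agent.Helper38.WY.O_GL0 := by
  intro p hpf hp2 K _ _ ιinf ιp Lg S hcl J M₂ _ _ _ hM₂ hJd ψ₁ hψ₁p hψ₁J hnt ε α hε hε₀ hom hnp
    hgs hsel
  let _ : Algebra (⊥ : IntermediateField K (AlgebraicClosure K)) M₂ :=
    (IntermediateField.inclusion bot_le).toRingHom.toAlgebra
  have hfb : finrank K (⊥ : IntermediateField K (AlgebraicClosure K)) = 1 := IntermediateField.finrank_bot
  have : FiniteDimensional K (⊥ : IntermediateField K (AlgebraicClosure K)) := inferInstance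
  have : NumberField (⊥ : IntermediateField K (AlgebraicClosure K)) :=
    NumberField.of_module_finite K _
  have hgb : IsGalois K (⊥ : IntermediateField K (AlgebraicClosure K)) := inferInstance
  have hcomp : ∀ x : K, algebraMap (⊥ : IntermediateField K (AlgebraicClosure K)) M₂
      (algebraMap K (⊥ : IntermediateField K (AlgebraicClosure K)) x) = algebraMap K M₂ x := by
    intro x
    rfl
  have h2 := h1 p hp2 K ιinf ιp Lg S hcl ⊥ J M₂ (fun _ => rfl) (by rw [hM₂, bot_sup_eq])
    (by rw [hfb]; exact Nat.coprime_one_left p) hJd 1 ?_ 1 1 (by rw [orderOf_one, hfb]) (by simp)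
    1 ψ₁ (fun g => by simp) hψ₁p hψ₁J hnt ε α hε ?_ hom hnp hgs ?_
  · have h3 : LeopoldtFor ιinf ιp Lg S ((1 : Chr K (AlgebraicClosure K) ℂ_[p]) * ψ₁) := h2
    rwa [show (1 : Chr K (AlgebraicClosure K) ℂ_[p]) * ψ₁ = ψ₁ from
      MonoidHom.ext fun g => one_mul _] at h3
  · -- injectivity: the group is trivial
    intro a b _
    have hsub : ∀ g : (⊥ : IntermediateField K (AlgebraicClosure K)) ≃ₐ[K]
        (⊥ : IntermediateField K (AlgebraicClosure K)), g = 1 := by
      intro g
      ext x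
      obtain ⟨y, hy⟩ := IntermediateField.mem_bot.1 x.2
      have e1 : algebraMap K (⊥ : IntermediateField K (AlgebraicClosure K)) y = x := Subtype.ext hy
      rw [← e1, g.commutes]
      rfl
    rw [hsub a, hsub b]
  · obtain ⟨ε₀, hε₀⟩ := hε₀
    refine ⟨algebraMap K _ ε₀, ?_, ?_⟩
    · rw [hcomp]; exact hε₀
    · rw [pow_one]; rfl
  · intro x hx
    obtain ⟨y, hy⟩ := IntermediateField.mem_bot.1 (x : (⊥ : IntermediateField K (AlgebraicClosure K))).2
    have e1 : algebraMap K (⊥ : IntermediateField K (AlgebraicClosure K)) y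
        = (x : (⊥ : IntermediateField K (AlgebraicClosure K))) := Subtype.ext hy
    have hy0 : y ≠ 0 := by
      rintro rfl
      rw [map_zero] at e1
      exact x.ne_zero e1.symm
    have e2 : algebraMap K M₂ y = algebraMap (⊥ : IntermediateField K (AlgebraicClosure K)) M₂
        (x : (⊥ : IntermediateField K (AlgebraicClosure K))) := by rw [← e1, hcomp]
    have hs : SelX (above (TSet ιinf ιp S) : Set (M₂ →+* ℂ_[p])) (X - 1 : (ZMod p)[X])
        (1 : K ≃ₐ[K] K) ε (α : M₂) (Units.mk0 y hy0) := by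
      refine ⟨?_, ?_, ?_⟩
      · exact Pool.Agent.Helper86.PPO.pw_pol_one _ (by simp) _
      · intro W
        rw [Units.val_mk0, e2]
        exact hx.loc W
      · intro τ hτ
        rw [Units.val_mk0, e2]
        exact hx.sig τ hτ
    obtain ⟨j, w, hw⟩ := hsel (Units.mk0 y hy0) hs
    refine ⟨j, w, ?_⟩
    rw [hw, Units.val_mk0, e2]

end Pool.Agent.Helper8.WY
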